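import Mathlib

/-!
The Devlin-Shelah weak diamond argument, in a fibred form: data lives on a type `T` with a height
map `ht : T → Ω` whose initial segments are countable.
-/

set_option autoImplicit false

open Cardinal Set

namespace Pool.Agent.P.MP_807794_lc

universe u v w

section
variable {Ω : Type u} [LinearOrder Ω] [WellFoundedLT Ω]

theorem exists_isLUB_of_bdd {s : Set Ω} (h : BddAbove s) : ∃ a, IsLUB s a := by
  refine ⟨wellFounded_lt.min (upperBounds s) h, wellFounded_lt.min_mem _ h, fun b hb => ?_⟩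
  exact not_lt.1 (wellFounded_lt.not_lt_min _ hb)

omit [WellFoundedLT Ω] in
theorem bdd_of_cof [Nonempty Ω] [NoMaxOrder Ω] (hcof : Order.cof Ω ≠ ℵ₀) (f : ℕ → Ω) :
    BddAbove (range f) := by
  have hα : ℵ₀ < Order.cof Ω := (Order.aleph0_le_cof.lt_of_ne' hcof)
  refine .of_not_isCofinal fun hg ↦ (Order.cof_le hg).not_gt (hα.trans_le' ?_)
  simpa using mk_range_le_lift (f := f)

/-- The next point of a cofinal set. -/
theorem exists_next [NoMaxOrder Ω] (C : Set Ω) (hC : IsCofinal C) (a : Ω) :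
    ∃ b, b ∈ C ∧ a < b ∧ ∀ c ∈ C, a < c → b ≤ c := by
  obtain ⟨a', ha'⟩ := exists_gt a
  obtain ⟨c, hc, hac⟩ := hC a'
  have hne : (C ∩ Ioi a).Nonempty := ⟨c, hc, lt_of_lt_of_le ha' hac⟩
  have hm := wellFounded_lt.min_mem _ hne
  refine ⟨_, hm.1, hm.2, fun c hc hac => ?_⟩
  exact not_lt.1 (wellFounded_lt.not_lt_min _ (show c ∈ C ∩ Ioi a from ⟨hc, hac⟩))

end

theorem weak_diamond_fail {Ω : Type u} [LinearOrder Ω] [WellFoundedLT Ω] [Nonempty Ω]
    [NoMaxOrder Ω] (hcof : Order.cof Ω ≠ ℵ₀) (hΩ : #Ω ≤ 𝔠)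
    {T : Type v} [Nonempty T] (ht : T → Ω) (hcount : ∀ a, {t | ht t < a}.Countable)
    {R : Type w} (hR : #R ≤ 𝔠) (F : Ω → (T → R) → Bool)
    (hF : ∀ a x y, (∀ t, ht t < a → x t = y t) → F a x = F a y)
    (hall : ∀ g : Ω → Bool, ∃ x : T → R, ∃ C, IsClub C ∧ ∀ a ∈ C, F a x = g a) :
    #(T → Bool) ≤ 𝔠 := by
  classical
  -- states and codes
  let Z := Bool × (ℕ → ℕ → R)
  have hZ : #Z ≤ 𝔠 := by
    have h1 : #(ℕ → R) ≤ 𝔠 := by
      simp only [mk_pi, prod_const, lift_uzero, mk_eq_aleph0, lift_aleph0]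
      calc #R ^ ℵ₀ ≤ 𝔠 ^ ℵ₀ := power_le_power_right hR
        _ = 𝔠 := continuum_power_aleph0
    have h2 : #(ℕ → ℕ → R) ≤ 𝔠 := by
      rw [mk_pi, prod_const]
      simp only [lift_uzero, mk_eq_aleph0, lift_aleph0]
      calc #(ℕ → R) ^ ℵ₀ ≤ 𝔠 ^ ℵ₀ := power_le_power_right h1
        _ = 𝔠 := continuum_power_aleph0
    simp only [Z, mk_prod, lift_uzero]
    calc _ ≤ (𝔠 : Cardinal.{w}) * 𝔠 := by
          refine mul_le_mul' ?_ h2
          simp only [mk_fintype, Fintype.card_bool, Nat.cast_ofNat, lift_ofNat]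
          exact (nat_lt_continuum 2).le
      _ = 𝔠 := continuum_mul_self
  have hZ1 : #(ℕ → Z) ≤ 𝔠 := by
    rw [mk_pi, prod_const]
    simp only [lift_uzero, mk_eq_aleph0, lift_aleph0]
    calc #Z ^ ℵ₀ ≤ 𝔠 ^ ℵ₀ := power_le_power_right hZ
      _ = 𝔠 := continuum_power_aleph0
  have hZ2 : #(ℕ → ℕ → Z) ≤ 𝔠 := by
    rw [mk_pi, prod_const]
    simp only [lift_uzero, mk_eq_aleph0, lift_aleph0]
    calc #(ℕ → Z) ^ ℵ₀ ≤ 𝔠 ^ ℵ₀ := power_le_power_right hZ1
      _ = 𝔠 := continuum_power_aleph0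
  have hcode : Nonempty ((Ω × (ℕ → Z)) ↪ (ℕ → Bool)) := by
    rw [← lift_mk_le']
    simp only [mk_prod, mk_pi, prod_const, lift_uzero, mk_eq_aleph0, lift_aleph0, mk_fintype,
      Fintype.card_bool, Nat.cast_ofNat, two_power_aleph0, lift_continuum]
    calc _ ≤ (𝔠 : Cardinal.{max u w}) * 𝔠 := by
          refine mul_le_mul' ?_ ?_
          · simpa using lift_le.{w}.2 hΩ
          · have := lift_le.{u}.2 hZ1
            simpa using this
      _ = 𝔠 := continuum_mul_self
  obtain ⟨e⟩ := hcode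
  -- enumeration of initial segments
  have hen : ∀ a : Ω, ∃ en : ℕ → T, {t | ht t < a} ⊆ range en := fun a =>
    ⟨_, Set.subset_range_enumerate (hcount a) (Classical.arbitrary T)⟩
  choose en hen using hen
  -- next point
  have hnext : ∀ C : {C : Set Ω // IsClub C}, ∀ a, ∃ b, b ∈ C.1 ∧ a < b ∧
      ∀ c ∈ C.1, a < c → b ≤ c := fun C a => exists_next C.1 C.2.isCofinal a
  choose nx hnx using hnext
  -- guessing reals
  have hall' : ∀ g : Ω → ℕ → Bool, ∃ x : T → ℕ → R, ∃ C, IsClub C ∧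
      ∀ a ∈ C, ∀ k, F a (fun t => x t k) = g a k := by
    intro g
    choose x C hC using fun k => hall (fun a => g a k)
    refine ⟨fun t k => x k t, ⋂ k, C k, IsClub.iInter_of_countable hcof fun k => (hC k).1, ?_⟩
    intro a ha k
    exact (hC k).2 a (mem_iInter.1 ha k)
  choose X D hD using hall'
  -- one step
  let St := (T → Z) × {C : Set Ω // IsClub C}
  let g : St → Ω → ℕ → Bool := fun s a => e (nx s.2 a, fun k => s.1 (en (nx s.2 a) k))
  let step : St → St := fun s =>
    (fun t => ((s.1 t).1, fun n => Nat.casesOn n (X (g s) t) (s.1 t).2),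
      ⟨s.2.1 ∩ D (g s), s.2.2.inter hcof (hD (g s)).1⟩)
  have hRne : Nonempty R := ⟨X (fun _ _ => true) (Classical.arbitrary T) 0⟩
  let init : (T → Bool) → St := fun A =>
    (fun t => (A t, fun _ _ => Classical.arbitrary R), ⟨univ, IsClub.univ⟩)
  let sq : (T → Bool) → ℕ → St := fun A n => step^[n] (init A)
  have hsq : ∀ A n, sq A (n + 1) = step (sq A n) := fun A n =>
    Function.iterate_succ_apply' _ _ _
  have hanti : ∀ A, Antitone fun n => (sq A n).2.1 := by
    intro A
    refine antitone_nat_of_succ_le fun n => ?_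
    rw [hsq]
    exact inter_subset_left
  have hclub : ∀ A, IsClub (⋂ n, (sq A n).2.1) := fun A =>
    IsClub.iInter_of_countable hcof fun n => (sq A n).2.2
  have hd0 : ∀ A, ∃ d, d ∈ ⋂ n, (sq A n).2.1 := fun A => (hclub A).nonempty
  choose d0 hd0 using hd0
  let fin : (T → Bool) → Ω × (ℕ → ℕ → Z) := fun A =>
    (d0 A, fun n k => (sq A n).1 (en (d0 A) k))
  have hinj : Function.Injective fin := by
    intro A B hAB
    let P : Set Ω := {d | (∀ n, d ∈ (sq A n).2.1) ∧ (∀ n, d ∈ (sq B n).2.1) ∧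
      ∀ n t, ht t < d → (sq A n).1 t = (sq B n).1 t}
    have h0 : d0 A ∈ P := by
      have h1 : d0 A = d0 B := congrArg Prod.fst hAB
      refine ⟨mem_iInter.1 (hd0 A), h1 ▸ mem_iInter.1 (hd0 B), fun n t htd => ?_⟩
      obtain ⟨k, rfl⟩ := hen _ htd
      have h2 := congrFun (congrFun (congrArg Prod.snd hAB) n) k
      simp only [fin] at h2
      rw [h2, h1]
    -- going down the sequence
    have hdown : ∀ n t, (sq A (n + 1)).1 t = (sq B (n + 1)).1 t →
        (sq A n).1 t = (sq B n).1 t ∧ X (g (sq A n)) t = X (g (sq B n)) t := by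
      intro n t h
      rw [hsq, hsq] at h
      simp only [step] at h
      have h1 := congrArg Prod.fst h
      have h2 := congrArg Prod.snd h
      refine ⟨Prod.ext h1 (funext fun m => congrFun h2 (m + 1)), congrFun h2 0⟩
    have hdown' : ∀ m n t, m ≤ n → (sq A n).1 t = (sq B n).1 t →
        (sq A m).1 t = (sq B m).1 t := by
      intro m n t hmn
      induction hmn with
      | refl => exact id
      | step _ ih => exact fun h => ih (hdown _ t h).1
    have hsucc : ∀ d ∈ P, ∃ d' ∈ P, d < d' := by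
      rintro d ⟨hA, hB, hAB⟩
      have hg : ∀ n, g (sq A n) d = g (sq B n) d := by
        intro n
        funext k
        have h1 : d ∈ D (g (sq A n)) := by
          have := hA (n + 1)
          rw [hsq] at this
          exact this.2
        have h2 : d ∈ D (g (sq B n)) := by
          have := hB (n + 1)
          rw [hsq] at this
          exact this.2
        rw [← (hD _).2 d h1 k, ← (hD _).2 d h2 k]
        refine hF _ _ _ fun t htd => ?_
        exact congrFun (hdown n t (hAB (n + 1) t htd)).2 k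
      have hb : ∀ n, nx (sq A n).2 d = nx (sq B n).2 d := fun n =>
        congrArg Prod.fst (e.injective (hg n))
      have hs : ∀ n t, ht t < nx (sq A n).2 d → (sq A n).1 t = (sq B n).1 t := by
        intro n t htd
        obtain ⟨k, rfl⟩ := hen _ htd
        have h2 := congrFun (congrArg Prod.snd (e.injective (hg n))) k
        simp only at h2
        rw [h2, hb]
      have hmono : ∀ A', Monotone fun n => nx (sq A' n).2 d := by
        intro A' m n hmn
        exact (hnx _ d).2.2 _ (hanti A' hmn (hnx _ d).1) (hnx _ d).2.1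
      obtain ⟨d', hd'⟩ := exists_isLUB_of_bdd (bdd_of_cof hcof fun n => nx (sq A n).2 d)
      have hmem : ∀ A', (∀ n, nx (sq A n).2 d = nx (sq A' n).2 d) → ∀ m, d' ∈ (sq A' m).2.1 := by
        intro A' hA' m
        refine (sq A' m).2.2.isLUB_mem (t := range fun n => nx (sq A' (m + n)).2 d) ?_
          (range_nonempty _) ⟨?_, fun c hc => hd'.2 ?_⟩
        · rintro _ ⟨n, rfl⟩
          exact hanti A' (Nat.le_add_right m n) (hnx _ d).1
        · rintro _ ⟨n, rfl⟩
          exact hd'.1 ⟨m + n, hA' _⟩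
        · rintro _ ⟨n, rfl⟩
          simp only [hA' n]
          exact (hmono A' (Nat.le_add_left n m)).trans (hc ⟨n, rfl⟩)
      refine ⟨d', ⟨hmem A fun _ => rfl, hmem B hb, fun m t htd => ?_⟩,
        (hnx (sq A 0).2 d).2.1.trans_le (hd'.1 ⟨0, rfl⟩)⟩
      obtain ⟨_, ⟨n, rfl⟩, hn⟩ := (lt_isLUB_iff hd').1 htd
      refine hdown' m (m + n) t (Nat.le_add_right m n) (hs _ t ?_)
      exact hn.trans_le (hmono A (Nat.le_add_left n m))
    have hunb : ¬ BddAbove P := by
      intro hbdd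
      obtain ⟨d, hd⟩ := exists_isLUB_of_bdd hbdd
      have hdP : d ∈ P := by
        refine ⟨fun n => (sq A n).2.2.isLUB_mem (fun c hc => hc.1 n) ⟨_, h0⟩ hd,
          fun n => (sq B n).2.2.isLUB_mem (fun c hc => hc.2.1 n) ⟨_, h0⟩ hd, fun n t htd => ?_⟩
        obtain ⟨c, hc, htc⟩ := (lt_isLUB_iff hd).1 htd
        exact hc.2.2 n t htc
      obtain ⟨d', hd', hlt⟩ := hsucc d hdP
      exact (hd.1 hd').not_gt hlt
    funext t
    rw [not_bddAbove_iff] at hunb
    obtain ⟨c, hc, htc⟩ := hunb (ht t)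
    exact congrArg Prod.fst (hc.2.2 0 t htc)
  have h1 := lift_mk_le'.2 ⟨⟨fin, hinj⟩⟩
  have h2 : #(Ω × (ℕ → ℕ → Z)) ≤ 𝔠 := by
    rw [mk_prod]
    calc _ ≤ (𝔠 : Cardinal.{max u w}) * 𝔠 := by
          refine mul_le_mul' ?_ ?_
          · simpa using lift_le.{w}.2 hΩ
          · have := lift_le.{u}.2 hZ2
            simpa using this
      _ = 𝔠 := continuum_mul_self
  have h3 := h1.trans (lift_le.{v}.2 h2)
  rw [lift_continuum] at h3
  rw [← lift_le.{max u w}, lift_continuum]
  exact h3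

end Pool.Agent.P.MP_807794_lc
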